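import Pool.Agent.Helper82.BT.Lang

/-!
# Back and forth between generic structures
-/

open FirstOrder FirstOrder.Language FirstOrder.Language.Structure

noncomputable section

namespace Pool.Agent.Helper82.BT

section

variable {M M' : Type} [Lg.Structure M] [Lg.Structure M'] {ι : Type}

/-- Two tuples have the same quantifier-free type, up to level `N` of the predicates `u`. -/
structure Eqv (N : ℕ) (x : ι → M) (y : ι → M') : Prop where
  eq : ∀ i j, x i = x j ↔ y i = y j
  lt : ∀ i j, Lt (x i) (x j) ↔ Lt (y i) (y j)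
  rr : ∀ i j, Rr (x i) (x j) ↔ Rr (y i) (y j)
  u : ∀ n, n < N → ∀ i, U n (x i) ↔ U n (y i)
  v : ∀ i, V (x i) ↔ V (y i)

lemma Eqv.symm {N : ℕ} {x : ι → M} {y : ι → M'} (h : Eqv N x y) : Eqv N y x :=
  ⟨fun i j => (h.eq i j).symm, fun i j => (h.lt i j).symm, fun i j => (h.rr i j).symm,
    fun n hn i => (h.u n hn i).symm, fun i => (h.v i).symm⟩

lemma Eqv.mono {N N' : ℕ} {x : ι → M} {y : ι → M'} (h : Eqv N x y) (hN : N' ≤ N) : Eqv N' x y :=
  ⟨h.eq, h.lt, h.rr, fun n hn i => h.u n (hn.trans_le hN) i, h.v⟩

lemma Eqv.snoc {N k : ℕ} {x : Fin k → M} {y : Fin k → M'} (h : Eqv N x y) {a : M} {b : M'}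
    (e : ∀ i, x i = a ↔ y i = b) (l1 : ∀ i, Lt (x i) a ↔ Lt (y i) b)
    (l2 : ∀ i, Lt a (x i) ↔ Lt b (y i)) (l3 : Lt a a ↔ Lt b b) (r1 : ∀ i, Rr (x i) a ↔ Rr (y i) b)
    (r2 : ∀ i, Rr a (x i) ↔ Rr b (y i)) (r3 : Rr a a ↔ Rr b b)
    (u : ∀ n, n < N → (U n a ↔ U n b)) (v : V a ↔ V b) :
    Eqv N (Fin.snoc x a : Fin (k + 1) → M) (Fin.snoc y b : Fin (k + 1) → M') := by
  constructor
  · intro i j
    induction i using Fin.lastCases with
    | last =>
      induction j using Fin.lastCases with
      | last => simp
      | cast j => simpa [eq_comm] using e j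
    | cast i =>
      induction j using Fin.lastCases with
      | last => simpa using e i
      | cast j => simpa using h.eq i j
  · intro i j
    induction i using Fin.lastCases with
    | last =>
      induction j using Fin.lastCases with
      | last => simpa using l3
      | cast j => simpa using l2 j
    | cast i =>
      induction j using Fin.lastCases with
      | last => simpa using l1 i
      | cast j => simpa using h.lt i j
  · intro i j
    induction i using Fin.lastCases with
    | last =>
      induction j using Fin.lastCases with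
      | last => simpa using r3
      | cast j => simpa using r2 j
    | cast i =>
      induction j using Fin.lastCases with
      | last => simpa using r1 i
      | cast j => simpa using h.rr i j
  · intro n hn i
    induction i using Fin.lastCases with
    | last => simpa using u n hn
    | cast i => simpa using h.u n hn i
  · intro i
    induction i using Fin.lastCases with
    | last => simpa using v
    | cast i => simpa using h.v i

lemma Good.anti_le (hM : Good M) {m n : ℕ} (h : m ≤ n) {x : M} (hx : U n x) : U m x := by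
  induction h with
  | refl => exact hx
  | step _ ih => exact ih (hM.anti _ _ hx)

lemma Good.exists_color (hM : Good M) (a : M) (N : ℕ) :
    ∃ t, t ≤ N ∧ ∀ n, n < N → (U n a ↔ n < t) := by
  induction N with
  | zero => exact ⟨0, le_rfl, fun n hn => absurd hn (Nat.not_lt_zero n)⟩
  | succ N ih =>
    by_cases h : U N a
    · exact ⟨N + 1, le_rfl, fun n hn => ⟨fun _ => hn, fun _ => hM.anti_le (Nat.lt_succ_iff.1 hn) h⟩⟩
    · obtain ⟨t, ht, h'⟩ := ih
      refine ⟨t, ht.trans (Nat.le_succ _), fun n hn => ?_⟩
      rcases Nat.lt_succ_iff_lt_or_eq.1 hn with h1 | rfl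
      · exact h' n h1
      · exact ⟨fun h2 => absurd h2 h, fun h2 => absurd h2 (not_lt.2 ht)⟩

/-- The extension step. -/
lemma Good.forth (hM : Good M) (hM' : Good M') {N k : ℕ} {x : Fin k → M} {y : Fin k → M'}
    (h : Eqv N x y) (a : M) :
    ∃ b : M', Eqv N (Fin.snoc x a : Fin (k + 1) → M) (Fin.snoc y b : Fin (k + 1) → M') := by
  by_cases ha : ∃ i, x i = a
  · obtain ⟨i, rfl⟩ := ha
    exact ⟨y i, h.snoc (fun j => h.eq j i) (fun j => h.lt j i) (fun j => h.lt i j) (h.lt i i)
      (fun j => h.rr j i) (fun j => h.rr i j) (h.rr i i) (fun n hn => h.u n hn i) (h.v i)⟩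
  · push Not at ha
    obtain ⟨t, ht, hta⟩ := hM.exists_color a N
    obtain ⟨b, hb⟩ := hM'.ext k N {i | Lt (x i) a} {i | Lt a (x i)} {i | Rr (x i) a}
      {i | Rr a (x i)} t (V a) ht y
      { c1 := fun i j hij hj => by
          rcases hij with hij | hij
          · have e := (h.eq i j).2 hij
            change Lt (x i) a
            rw [e]
            exact hj
          · exact hM.trans _ _ _ ((h.lt i j).2 hij) hj
        c2 := fun i j hij hi => by
          rcases hij with hij | hij
          · have e := (h.eq i j).2 hij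
            change Lt a (x j)
            rw [← e]
            exact hi
          · exact hM.trans _ _ _ hi ((h.lt i j).2 hij)
        c3 := fun i j hi hj => (h.lt i j).1 (hM.trans _ _ _ hi hj)
        c4 := fun i j hij hi => by
          have e := (h.eq i j).2 hij
          change Rr (x j) a
          rw [← e]
          exact hi
        c4' := fun i j hij hi => by
          have e := (h.eq i j).2 hij
          change Rr a (x j)
          rw [← e]
          exact hi
        c5 := fun i n hi hn => (hta n n.2).1 (hM.umono n _ _ hi ((h.u n n.2 i).2 hn))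
        c6 := fun i n hi => (h.u n (n.2.trans_le ht) i).1
          (hM.umono n _ _ hi ((hta n (n.2.trans_le ht)).2 n.2))
        c7 := fun i hi hv => hM.vmono _ _ hi ((h.v i).2 hv)
        c8 := fun i hi hv => (h.v i).1 (hM.vmono _ _ hi hv) }
    refine ⟨b, h.snoc (fun i => ⟨fun e => absurd e (ha i), fun e => absurd e (hb.ne i)⟩)
      (fun i => (hb.d i).symm) (fun i => (hb.e i).symm)
      ⟨fun e => absurd e (hM.irrefl a), fun e => absurd e (hM'.irrefl b)⟩
      (fun i => (hb.a i).symm) (fun i => (hb.b i).symm)
      ⟨fun e => absurd e (hM.rirr a), fun e => absurd e (hM'.rirr b)⟩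
      (fun n hn => (hta n hn).trans (hb.u ⟨n, hn⟩).symm) hb.v.symm⟩

lemma term_var {n : ℕ} (t : Lg.Term (Empty ⊕ Fin n)) : ∃ i, t = .var (Sum.inr i) := by
  cases t with
  | var s =>
    rcases s with e | i
    · exact e.elim
    · exact ⟨i, rfl⟩
  | func f ts => exact isEmptyElim f

/-- Every formula is decided by the quantifier-free type, up to some level. -/
theorem Good.formula (hM : Good M) (hM' : Good M') {n : ℕ} (φ : Lg.BoundedFormula Empty n) :
    ∃ N, ∀ (x : Fin n → M) (y : Fin n → M'), Eqv N x y →
      (φ.Realize (default : Empty → M) x ↔ φ.Realize (default : Empty → M') y) := by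
  induction φ with
  | falsum => exact ⟨0, fun x y _ => Iff.rfl⟩
  | equal t₁ t₂ =>
    obtain ⟨i, rfl⟩ := term_var t₁
    obtain ⟨j, rfl⟩ := term_var t₂
    exact ⟨0, fun x y h => h.eq i j⟩
  | @rel n l R ts =>
    have hts : ∀ s, ∃ i, ts s = .var (Sum.inr i) := fun s => term_var (ts s)
    choose g hg using hts
    obtain rfl : ts = fun s => .var (Sum.inr (g s)) := funext hg
    have e1 : ∀ x : Fin n → M, (BoundedFormula.rel R fun s => Term.var (Sum.inr (g s))).Realize
      (default : Empty → M) x ↔ RelMap R (fun s => x (g s)) := fun x => Iff.rfl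
    have e2 : ∀ x : Fin n → M', (BoundedFormula.rel R fun s => Term.var (Sum.inr (g s))).Realize
      (default : Empty → M') x ↔ RelMap R (fun s => x (g s)) := fun x => Iff.rfl
    simp only [e1, e2]
    have f1 : ∀ {X : Type} (x : Fin n → X) (g : Fin 1 → Fin n),
        (fun s => x (g s)) = ![x (g 0)] := by
      intro X x g
      ext s
      rw [Subsingleton.elim s 0]
      rfl
    have f2 : ∀ {X : Type} (x : Fin n → X) (g : Fin 2 → Fin n),
        (fun s => x (g s)) = ![x (g 0), x (g 1)] := by
      intro X x g
      ext s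
      fin_cases s <;> rfl
    cases R with
    | u m =>
      refine ⟨m + 1, fun x y h => ?_⟩
      rw [f1 x, f1 y]
      exact h.u m (Nat.lt_succ_self m) _
    | v =>
      refine ⟨0, fun x y h => ?_⟩
      rw [f1 x, f1 y]
      exact h.v _
    | lt =>
      refine ⟨0, fun x y h => ?_⟩
      rw [f2 x, f2 y]
      exact h.lt _ _
    | rr =>
      refine ⟨0, fun x y h => ?_⟩
      rw [f2 x, f2 y]
      exact h.rr _ _
  | imp φ ψ ih1 ih2 =>
    obtain ⟨N1, h1⟩ := ih1
    obtain ⟨N2, h2⟩ := ih2
    refine ⟨max N1 N2, fun x y h => ?_⟩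
    rw [BoundedFormula.realize_imp, BoundedFormula.realize_imp,
      h1 x y (h.mono (le_max_left _ _)), h2 x y (h.mono (le_max_right _ _))]
  | all φ ih =>
    obtain ⟨N, h1⟩ := ih
    refine ⟨N, fun x y h => ?_⟩
    rw [BoundedFormula.realize_all, BoundedFormula.realize_all]
    constructor
    · intro hx b
      obtain ⟨a, ha⟩ := hM'.forth hM h.symm b
      exact (h1 _ _ ha.symm).1 (hx a)
    · intro hy a
      obtain ⟨b, hb⟩ := hM.forth hM' h a
      exact (h1 _ _ hb).2 (hy b)

/-- Generic structures are elementarily equivalent. -/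
theorem Good.elementarilyEquivalent (hM : Good M) (hM' : Good M') : M ≅[Lg] M' := by
  rw [elementarilyEquivalent_iff]
  intro φ
  obtain ⟨N, hN⟩ := hM.formula hM' φ
  have := hN default default ⟨fun i => i.elim0, fun i => i.elim0, fun i => i.elim0,
    fun n _ i => i.elim0, fun i => i.elim0⟩
  exact this

/-- A map which preserves and reflects all relations is an elementary embedding. -/
theorem Good.elementary (hM : Good M) (hM' : Good M') (f : M → M') (h : ∀ N, Eqv N id f) :
    Nonempty (M ↪ₑ[Lg] M') := by
  refine ⟨⟨f, fun n φ x => ?_⟩⟩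
  obtain ⟨N, hN⟩ := hM.formula hM'
    (BoundedFormula.relabel (Sum.inr : Fin n → Empty ⊕ Fin n) φ : Lg.BoundedFormula Empty n)
  have h1 := hN x (f ∘ x) ⟨fun i j => (h N).eq _ _, fun i j => (h N).lt _ _,
    fun i j => (h N).rr _ _, fun m hm i => (h N).u m hm _, fun i => (h N).v _⟩
  exact (φ.realize_relabel_sumInr.symm.trans h1.symm).trans φ.realize_relabel_sumInr

end

end Pool.Agent.Helper82.BT
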