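import Pool.Agent.Helper82.BT.Gen

/-!
# Invariants of the free generic extensions
-/

open FirstOrder FirstOrder.Language FirstOrder.Language.Structure

noncomputable section

namespace Pool.Agent.Helper82.BT

section

variable {I : Inp}

/-- A new element of infinite colour lies above an older element of infinite colour. -/
lemma K_new {n : ℕ} (h : K (Gn.inr n : Gn I)) :
    ∃ d ∈ dom I n, Lt d (Gn.inr n) ∧ K d := by
  have hz : (Gn.inr n : Gn I) ∈ dom I (n + 1) := dom_inr.2 (Nat.lt_succ_self n)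
  have h' : ∀ m, (stage I (n + 1)).u m (Gn.inr n) := fun m => (u_iff hz).1 (h m)
  by_cases hv : (enum I n).Valid (stage I n) (dom I n)
  · rw [stage_valid hv] at h'
    have h2 : ∀ m, m < (enum I n).t ∨ ∃ d ∈ (enum I n).D, (stage I n).u m d := by
      intro m
      rcases h' m with h1 | ⟨-, h1⟩
      · exact absurd ((stage_ok I n).du _ _ h1) (inr_notMem n)
      · exact h1
    have h3 : ∃ d ∈ (enum I n).D, K d := by
      by_contra hcon
      push Not at hcon
      have h4 : ∀ d : Gn I, ∃ m, d ∈ (enum I n).D → ¬ U m d := by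
        intro d
        by_cases hd : d ∈ (enum I n).D
        · have h5 := hcon d hd
          unfold K at h5
          push Not at h5
          obtain ⟨m, hm⟩ := h5
          exact ⟨m, fun _ => hm⟩
        · exact ⟨0, fun h => absurd h hd⟩
      choose g hg using h4
      rcases h2 (max (enum I n).t ((enum I n).D.sup g)) with h6 | ⟨d, hd, h6⟩
      · exact absurd h6 (not_lt.2 (le_max_left _ _))
      · rw [← u_iff (hv.hD d hd)] at h6
        exact hg d hd ((good_gen I).anti_le ((Finset.le_sup hd).trans (le_max_right _ _)) h6)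
    obtain ⟨d, hd, hK⟩ := h3
    refine ⟨d, hv.hD d hd, ?_, hK⟩
    rw [lt_iff (dom_mono (Nat.le_succ n) (hv.hD d hd)) hz, stage_valid hv]
    exact Or.inr (Or.inl ⟨rfl, d, hd, Or.inl rfl⟩)
  · rw [stage_invalid hv] at h'
    exact absurd ((stage_ok I n).du _ _ (h' 0)) (inr_notMem n)

lemma not_lt_inl {p q : I.P} : ¬ Lt (Gn.inl p : Gn I) (Gn.inl q) := by
  rw [lt_iff (dom_inl 0 p) (dom_inl 0 q)]
  exact fun h => h

lemma rr_inl {p q : I.P} : Rr (Gn.inl p : Gn I) (Gn.inl q) ↔ I.r p q := by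
  rw [rr_iff (dom_inl 0 p) (dom_inl 0 q)]
  constructor
  · rintro ⟨p', q', h1, h2, h⟩
    rw [Gn.inl_inj h1, Gn.inl_inj h2]
    exact h
  · intro h
    exact ⟨p, q, rfl, rfl, h⟩

lemma u_inl {m : ℕ} {p : I.P} : U m (Gn.inl p : Gn I) ↔ I.u m p := by
  rw [u_iff (dom_inl 0 p)]
  constructor
  · rintro ⟨p', h1, h⟩
    rw [Gn.inl_inj h1]
    exact h
  · intro h
    exact ⟨p, rfl, h⟩

lemma v_inl {p : I.P} : V (Gn.inl p : Gn I) ↔ I.v p := by
  rw [v_iff (dom_inl 0 p)]
  constructor
  · rintro ⟨p', h1, h⟩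
    rw [Gn.inl_inj h1]
    exact h
  · intro h
    exact ⟨p, rfl, h⟩

/-- The elements below the antichain have finite colour. -/
lemma below_inl (p : I.P) (n : ℕ) : Lt (Gn.inr n : Gn I) (Gn.inl p) → ¬ K (Gn.inr n : Gn I) := by
  induction n using Nat.strong_induction_on with
  | _ n ih =>
    intro h hK
    obtain ⟨d, hd, hlt, hKd⟩ := K_new hK
    have h1 := (good_gen I).trans _ _ _ hlt h
    rcases Gn.cases d with ⟨q, rfl⟩ | ⟨k, rfl⟩
    · exact not_lt_inl h1
    · exact ih k (dom_inr.1 hd) h1 hKd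

lemma below_inl' {p : I.P} {x : Gn I} (h : Lt x (Gn.inl p)) : ¬ K x := by
  rcases Gn.cases x with ⟨q, rfl⟩ | ⟨k, rfl⟩
  · exact absurd h not_lt_inl
  · exact below_inl p k h

/-- Every element of infinite colour lies above such an element of the antichain. -/
lemma above_inl (x : Gn I) (hx : K x) :
    ∃ p, K (Gn.inl p : Gn I) ∧ (V (Gn.inl p : Gn I) → V x) := by
  rcases Gn.cases x with ⟨q, rfl⟩ | ⟨n, rfl⟩
  · exact ⟨q, hx, id⟩
  · induction n using Nat.strong_induction_on with
    | _ n ih =>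
      obtain ⟨d, hd, hlt, hKd⟩ := K_new hx
      rcases Gn.cases d with ⟨q, rfl⟩ | ⟨k, rfl⟩
      · exact ⟨q, hKd, fun h => (good_gen I).vmono _ _ hlt h⟩
      · obtain ⟨p, hp, hv⟩ := ih k (dom_inr.1 hd) hKd
        exact ⟨p, hp, fun h => (good_gen I).vmono _ _ hlt (hv h)⟩

end

/-- The minimal elements of infinite colour. -/
def Mn {M : Type} [Lg.Structure M] (x : M) : Prop := K x ∧ ∀ y, Lt y x → ¬ K y

lemma mn_iff {I : Inp} (hI : ∀ m p, I.u m p) (x : Gn I) : Mn x ↔ ∃ p, x = Gn.inl p := by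
  constructor
  · rintro ⟨h1, h2⟩
    rcases Gn.cases x with ⟨q, rfl⟩ | ⟨n, rfl⟩
    · exact ⟨q, rfl⟩
    · obtain ⟨d, -, hlt, hKd⟩ := K_new h1
      exact absurd hKd (h2 d hlt)
  · rintro ⟨p, rfl⟩
    exact ⟨fun m => u_inl.2 (hI m p), fun y hy => below_inl' hy⟩

/-- The initial data coding a set of natural numbers. -/
def codeI (S : Set ℕ) : Inp where
  P := ℕ
  cP := inferInstance
  r := fun p q => p < q
  u := fun _ _ => True
  v := fun p => p ∈ S
  rirr := fun p => lt_irrefl p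
  anti := fun _ _ _ => trivial

section

variable {M N : Type} [Lg.Structure M] [Lg.Structure N]

lemma iso_u (e : M ≃[Lg] N) (m : ℕ) (x : M) : U m (e x) ↔ U m x := by
  have := StrongHomClass.map_rel (L := Lg) e (Rl.u m : Lg.Relations 1) ![x]
  have h : (e ∘ ![x]) = ![e x] := by
    ext i
    rw [Subsingleton.elim i 0]
    rfl
  rw [h] at this
  exact this

lemma iso_v (e : M ≃[Lg] N) (x : M) : V (e x) ↔ V x := by
  have := StrongHomClass.map_rel (L := Lg) e (Rl.v : Lg.Relations 1) ![x]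
  have h : (e ∘ ![x]) = ![e x] := by
    ext i
    rw [Subsingleton.elim i 0]
    rfl
  rw [h] at this
  exact this

lemma iso_lt (e : M ≃[Lg] N) (x y : M) : Lt (e x) (e y) ↔ Lt x y := by
  have := StrongHomClass.map_rel (L := Lg) e (Rl.lt : Lg.Relations 2) ![x, y]
  have h : (e ∘ ![x, y]) = ![e x, e y] := by
    ext i
    fin_cases i <;> rfl
  rw [h] at this
  exact this

lemma iso_rr (e : M ≃[Lg] N) (x y : M) : Rr (e x) (e y) ↔ Rr x y := by
  have := StrongHomClass.map_rel (L := Lg) e (Rl.rr : Lg.Relations 2) ![x, y]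
  have h : (e ∘ ![x, y]) = ![e x, e y] := by
    ext i
    fin_cases i <;> rfl
  rw [h] at this
  exact this

lemma emb_u (e : M ↪ₑ[Lg] N) (m : ℕ) (x : M) : U m (e x) ↔ U m x := by
  have := StrongHomClass.map_rel (L := Lg) e (Rl.u m : Lg.Relations 1) ![x]
  have h : (e ∘ ![x]) = ![e x] := by
    ext i
    rw [Subsingleton.elim i 0]
    rfl
  rw [h] at this
  exact this

lemma emb_v (e : M ↪ₑ[Lg] N) (x : M) : V (e x) ↔ V x := by
  have := StrongHomClass.map_rel (L := Lg) e (Rl.v : Lg.Relations 1) ![x]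
  have h : (e ∘ ![x]) = ![e x] := by
    ext i
    rw [Subsingleton.elim i 0]
    rfl
  rw [h] at this
  exact this

lemma iso_mn (e : M ≃[Lg] N) (x : M) (h : Mn x) : Mn (e x) := by
  refine ⟨fun m => (iso_u e m x).2 (h.1 m), fun y hy hK => ?_⟩
  have h1 : e (e.symm y) = y := e.apply_symm_apply y
  refine h.2 (e.symm y) ?_ fun m => ?_
  · rw [← iso_lt e, h1]
    exact hy
  · rw [← iso_u e, h1]
    exact hK m

end

lemma iso_code {S S' : Set ℕ} (e : Gn (codeI S) ≃[Lg] Gn (codeI S')) : S = S' := by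
  have hm : ∀ p : ℕ, ∃ q : ℕ, e (Gn.inl (I := codeI S) p) = Gn.inl (I := codeI S') q := fun p =>
    (mn_iff (fun _ _ => trivial) _).1 (iso_mn e _ ((mn_iff (fun _ _ => trivial) _).2 ⟨p, rfl⟩))
  have hm' : ∀ p : ℕ, ∃ q : ℕ, e.symm (Gn.inl (I := codeI S') p) = Gn.inl (I := codeI S) q :=
    fun p => (mn_iff (fun _ _ => trivial) _).1
      (iso_mn e.symm _ ((mn_iff (fun _ _ => trivial) _).2 ⟨p, rfl⟩))
  choose g hg using hm
  choose g' hg' using hm'
  have hmono : StrictMono g := by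
    intro p q hpq
    have h1 : Rr (Gn.inl (I := codeI S) p) (Gn.inl (I := codeI S) q) := rr_inl.2 hpq
    rw [← iso_rr e, hg, hg] at h1
    exact rr_inl.1 h1
  have hmono' : StrictMono g' := by
    intro p q hpq
    have h1 : Rr (Gn.inl (I := codeI S') p) (Gn.inl (I := codeI S') q) := rr_inl.2 hpq
    rw [← iso_rr e.symm, hg', hg'] at h1
    exact rr_inl.1 h1
  have hgg : ∀ p, g' (g p) = p := by
    intro p
    have h1 : e.symm (e (Gn.inl (I := codeI S) p)) = Gn.inl (I := codeI S) p :=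
      e.symm_apply_apply _
    rw [hg, hg'] at h1
    exact Gn.inl_inj h1
  have hid : ∀ p, g p = p := by
    intro p
    apply le_antisymm
    · have h1 := hmono'.le_apply (x := g p)
      rw [hgg] at h1
      exact h1
    · exact hmono.le_apply
  ext p
  have h1 := iso_v e (Gn.inl (I := codeI S) p)
  rw [hg, hid, v_inl, v_inl] at h1
  exact h1.symm

end Pool.Agent.Helper82.BT
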