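import Pool.Agent.Helper82.BT.BF

/-!
# Embeddings of countable generic structures
-/

open FirstOrder FirstOrder.Language FirstOrder.Language.Structure

noncomputable section

namespace Pool.Agent.Helper82.BT

lemma exists_seq {X : Type} (Φ : ∀ n : ℕ, (Fin n → X) → Prop) (h0 : Φ 0 Fin.elim0)
    (hs : ∀ n y, Φ n y → ∃ b, Φ (n + 1) (Fin.snoc y b)) :
    ∃ f : ℕ → X, ∀ n, Φ n (fun i => f i) := by
  choose b hb using hs
  let T : ∀ n : ℕ, {y : Fin n → X // Φ n y} := fun n => Nat.rec ⟨Fin.elim0, h0⟩
    (fun n y => ⟨Fin.snoc y.1 (b n y.1 y.2), hb n y.1 y.2⟩) n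
  have hT : ∀ n, (T (n + 1)).1 = Fin.snoc (T n).1 (b n (T n).1 (T n).2) := fun n => rfl
  let f : ℕ → X := fun n => (T (n + 1)).1 (Fin.last n)
  have hf : ∀ n, (T n).1 = fun i : Fin n => f i := by
    intro n
    induction n with
    | zero => exact funext fun i => i.elim0
    | succ n ih =>
      funext i
      induction i using Fin.lastCases with
      | last => rfl
      | cast i =>
        rw [hT, Fin.snoc_castSucc, ih]
        rfl
  exact ⟨f, fun n => by rw [← hf]; exact (T n).2⟩

section

variable {M M' : Type} [Lg.Structure M] [Lg.Structure M']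

/-- The elements of infinite colour. -/
def K (x : M) : Prop := ∀ n, U n x

lemma Good.K_mono (hM : Good M) {x y : M} (h : Lt x y) (hx : K x) : K y :=
  fun n => hM.umono n _ _ h (hx n)

/-- The invariant of the construction. -/
structure Inv {e : Type} (a : e → M') (m : ℕ → M) (n : ℕ) (y : Fin n → M') : Prop where
  eqv : ∀ N, Eqv N (fun i : Fin n => m i) y
  ne : ∀ i j, y i ≠ a j
  nlt : ∀ i j, ¬ Lt (y i) (a j)
  lt : ∀ (i : Fin n) j, K (m i) → Lt (a j) (y i)

lemma Inv.snoc {e : Type} {a : e → M'} {m : ℕ → M} {n : ℕ} {y : Fin n → M'} (h : Inv a m n y)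
    {b : M'} (hb : ∀ N, Eqv N (Fin.snoc (fun i : Fin n => m i) (m n) : Fin (n + 1) → M)
      (Fin.snoc y b : Fin (n + 1) → M')) (hne : ∀ j, b ≠ a j) (hnlt : ∀ j, ¬ Lt b (a j))
    (hlt : ∀ j, K (m n) → Lt (a j) b) : Inv a m (n + 1) (Fin.snoc y b) := by
  have e : (fun i : Fin (n + 1) => m i) = Fin.snoc (fun i : Fin n => m i) (m n) := by
    funext i
    induction i using Fin.lastCases with
    | last => simp
    | cast i => simp
  constructor
  · intro N
    rw [e]
    exact hb N
  · intro i j
    induction i using Fin.lastCases with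
    | last => simpa using hne j
    | cast i => simpa using h.ne i j
  · intro i j
    induction i using Fin.lastCases with
    | last => simpa using hnlt j
    | cast i => simpa using h.nlt i j
  · intro i j
    induction i using Fin.lastCases with
    | last => simpa using hlt j
    | cast i => simpa using h.lt i j

lemma Inv.step (hM : Good M) (hM' : Good M') {e : Type} [Finite e] {a : e → M'} {m : ℕ → M}
    (ha : ∀ j, K (a j)) (hv : ∀ (j : e) (x : M), K x → V (a j) → V x)
    (he : ∀ x : M, K x → Nonempty e) (n : ℕ) (y : Fin n → M') (h : Inv a m n y) :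
    ∃ b, Inv a m (n + 1) (Fin.snoc y b) := by
  by_cases hn : ∃ i : Fin n, m i = m n
  · obtain ⟨i, hi⟩ := hn
    refine ⟨y i, h.snoc (fun N => ?_) (fun j => h.ne i j) (fun j => h.nlt i j) (fun j hj =>
      h.lt i j (by rw [hi]; exact hj))⟩
    rw [← hi]
    have h' := h.eqv N
    exact h'.snoc (fun j => h'.eq j i) (fun j => h'.lt j i) (fun j => h'.lt i j) (h'.lt i i)
      (fun j => h'.rr j i) (fun j => h'.rr i j) (h'.rr i i) (fun n hn => h'.u n hn i) (h'.v i)
  · push Not at hn
    have hu : ∀ (k : ℕ) (i : Fin n), U k (m i) ↔ U k (y i) := fun k i =>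
      (h.eqv (k + 1)).u k (Nat.lt_succ_self k) i
    have hE := h.eqv 0
    -- the colour
    obtain ⟨t, N, htN, htK, ht⟩ : ∃ t N, t ≤ N ∧ (K (m n) → t = 0 ∧ N = 0) ∧
        (¬ K (m n) → N = t + 1 ∧ ∀ k, U k (m n) ↔ k < t) := by
      by_cases hK : K (m n)
      · exact ⟨0, 0, le_rfl, fun _ => ⟨rfl, rfl⟩, fun h => absurd hK h⟩
      · have hK' : ∃ k, ¬ U k (m n) := by
          unfold K at hK
          push Not at hK
          exact hK
        classical
        refine ⟨Nat.find hK', Nat.find hK' + 1, Nat.le_succ _, fun h => absurd h hK, fun _ =>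
          ⟨rfl, fun k => ⟨fun hk => ?_, fun hk => ?_⟩⟩⟩
        · by_contra hlt
          exact Nat.find_spec hK' (hM.anti_le (not_lt.1 hlt) hk)
        · have := Nat.find_min hK' hk
          push Not at this
          exact this
    -- the extension property
    obtain ⟨b, hb⟩ := hM'.ext' (ι := Fin n ⊕ e) (N := N)
      (D := {s | Sum.elim (fun i : Fin n => Lt (m i) (m n)) (fun _ => K (m n)) s})
      (E := {s | Sum.elim (fun i : Fin n => Lt (m n) (m i)) (fun _ => False) s})
      (A := {s | Sum.elim (fun i : Fin n => Rr (m i) (m n)) (fun _ => False) s})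
      (B := {s | Sum.elim (fun i : Fin n => Rr (m n) (m i)) (fun _ => False) s})
      (t := t) (w := V (m n)) htN (x := Sum.elim y a)
      { c1 := by
          rintro (i | i) (j | j) hij hj
          · change Lt (m i) (m n)
            change Lt (m j) (m n) at hj
            rcases hij with hij | hij
            · have := (hE.eq i j).2 hij
              rw [this]
              exact hj
            · exact hM.trans _ _ _ ((hE.lt i j).2 hij) hj
          · rcases hij with hij | hij
            · exact absurd hij (h.ne i j)
            · exact absurd hij (h.nlt i j)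
          · rcases hij with hij | hij
            · exact absurd hij.symm (h.ne j i)
            · change K (m n)
              change Lt (m j) (m n) at hj
              have h1 : K (y j) := hM'.K_mono hij (ha i)
              exact hM.K_mono hj (fun k => (hu k j).2 (h1 k))
          · exact hj
        c2 := by
          rintro (i | i) (j | j) hij hi
          · change Lt (m n) (m j)
            change Lt (m n) (m i) at hi
            rcases hij with hij | hij
            · have := (hE.eq i j).2 hij
              rw [← this]
              exact hi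
            · exact hM.trans _ _ _ hi ((hE.lt i j).2 hij)
          · rcases hij with hij | hij
            · exact absurd hij (h.ne i j)
            · exact absurd hij (h.nlt i j)
          · exact hi.elim
          · exact hi.elim
        c3 := by
          rintro (i | i) (j | j) hi hj
          · exact (hE.lt i j).1 (hM.trans _ _ _ hi hj)
          · exact hj.elim
          · exact h.lt j i (hM.K_mono hj hi)
          · exact hj.elim
        c4 := by
          rintro (i | i) (j | j) hij hi
          · have := (hE.eq i j).2 hij
            change Rr (m j) (m n)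
            rw [← this]
            exact hi
          · exact absurd hij (h.ne i j)
          · exact hi.elim
          · exact hi.elim
        c4' := by
          rintro (i | i) (j | j) hij hi
          · have := (hE.eq i j).2 hij
            change Rr (m n) (m j)
            rw [← this]
            exact hi
          · exact absurd hij (h.ne i j)
          · exact hi.elim
          · exact hi.elim
        c5 := by
          rintro (i | i) k hi hk
          · by_cases hK : K (m n)
            · exact absurd k.2 (by have := (htK hK).2; omega)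
            · exact ((ht hK).2 k).1 (hM.umono _ _ _ hi ((hu k i).2 hk))
          · exact absurd k.2 (by have := (htK hi).2; omega)
        c6 := by
          rintro (i | i) k hi
          · by_cases hK : K (m n)
            · exact absurd k.2 (by have := (htK hK).1; omega)
            · exact (hu k i).1 (hM.umono _ _ _ hi (((ht hK).2 k).2 k.2))
          · exact hi.elim
        c7 := by
          rintro (i | i) hi hvi
          · exact hM.vmono _ _ hi ((hE.v i).2 hvi)
          · exact hv i _ hi hvi
        c8 := by
          rintro (i | i) hi hvi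
          · exact (hE.v i).1 (hM.vmono _ _ hi hvi)
          · exact hi.elim }
    have hbK : K (m n) → K b := by
      intro hK
      obtain ⟨j⟩ := he _ hK
      exact hM'.K_mono ((hb.d (Sum.inr j)).2 hK) (ha j)
    have hbu : ∀ k, U k (m n) ↔ U k b := by
      intro k
      by_cases hK : K (m n)
      · exact ⟨fun _ => hbK hK k, fun _ => hK k⟩
      · obtain ⟨rfl, h2⟩ := ht hK
        rw [h2]
        constructor
        · intro hk
          exact (hb.u ⟨k, hk.trans (Nat.lt_succ_self t)⟩).2 hk
        · intro hk
          by_contra hlt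
          have h3 : U t b := hM'.anti_le (not_lt.1 hlt) hk
          exact lt_irrefl t ((hb.u ⟨t, Nat.lt_succ_self t⟩).1 h3)
    refine ⟨b, h.snoc (fun N' => ?_) (fun j => (hb.ne (Sum.inr j)).symm)
      (fun j => fun hj => (hb.e (Sum.inr j)).1 hj) (fun j hK => (hb.d (Sum.inr j)).2 hK)⟩
    exact (h.eqv N').snoc
      (fun i => ⟨fun e => absurd e (hn i), fun e => absurd e (hb.ne (Sum.inl i))⟩)
      (fun i => (hb.d (Sum.inl i)).symm) (fun i => (hb.e (Sum.inl i)).symm)
      ⟨fun e => absurd e (hM.irrefl _), fun e => absurd e (hM'.irrefl b)⟩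
      (fun i => (hb.a (Sum.inl i)).symm) (fun i => (hb.b (Sum.inl i)).symm)
      ⟨fun e => absurd e (hM.rirr _), fun e => absurd e (hM'.rirr b)⟩
      (fun k _ => hbu k) hb.v.symm

/-- The embedding theorem. -/
theorem Good.exists_embedding (hM : Good M) (hM' : Good M') [Countable M] {e : Type} [Finite e]
    (a : e → M') (ha : ∀ j, K (a j)) (hv : ∀ (j : e) (x : M), K x → V (a j) → V x)
    (he : ∀ x : M, K x → Nonempty e) : Nonempty (M ↪ₑ[Lg] M') := by
  have hne : Nonempty M := by
    obtain ⟨y, -⟩ := hM.ext' (ι := Empty) (N := 0) (D := ∅) (E := ∅) (A := ∅) (B := ∅) (t := 0)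
      (w := False) le_rfl (x := fun i => i.elim)
      ⟨fun i => i.elim, fun i => i.elim, fun i => i.elim, fun i => i.elim, fun i => i.elim,
        fun i => i.elim, fun i => i.elim, fun i => i.elim, fun i => i.elim⟩
    exact ⟨y⟩
  obtain ⟨m, hm⟩ := exists_surjective_nat M
  obtain ⟨f, hf⟩ := exists_seq (Inv a m)
    ⟨fun N => ⟨fun i => i.elim0, fun i => i.elim0, fun i => i.elim0, fun _ _ i => i.elim0,
      fun i => i.elim0⟩, fun i => i.elim0, fun i => i.elim0, fun i => i.elim0⟩
    (Inv.step hM hM' ha hv he)
  choose g hg using hm
  refine hM.elementary hM' (fun x => f (g x)) fun N => ?_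
  have key : ∀ x y : M, Eqv N (fun i : Fin (max (g x) (g y) + 1) => m i)
      (fun i : Fin (max (g x) (g y) + 1) => f i) := fun x y => (hf _).eqv N
  have l1 : ∀ x y : M, g x < max (g x) (g y) + 1 := fun x y =>
    Nat.lt_succ_of_le (le_max_left _ _)
  have l2 : ∀ x y : M, g y < max (g x) (g y) + 1 := fun x y =>
    Nat.lt_succ_of_le (le_max_right _ _)
  constructor
  · intro x y
    have := (key x y).eq ⟨g x, l1 x y⟩ ⟨g y, l2 x y⟩
    simpa only [hg, id_eq] using this
  · intro x y
    have := (key x y).lt ⟨g x, l1 x y⟩ ⟨g y, l2 x y⟩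
    simpa only [hg, id_eq] using this
  · intro x y
    have := (key x y).rr ⟨g x, l1 x y⟩ ⟨g y, l2 x y⟩
    simpa only [hg, id_eq] using this
  · intro n hn x
    have := (key x x).u n hn ⟨g x, l1 x x⟩
    simpa only [hg, id_eq] using this
  · intro x
    have := (key x x).v ⟨g x, l1 x x⟩
    simpa only [hg, id_eq] using this

end

end Pool.Agent.Helper82.BT
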