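import Pool.Agent.Helper82.BT.Emb

/-!
# Free generic extensions
-/

open FirstOrder FirstOrder.Language FirstOrder.Language.Structure

noncomputable section

namespace Pool.Agent.Helper82.BT

/-- A stage of the construction. -/
@[ext] structure Stg (X : Type) where
  lt : X → X → Prop
  rr : X → X → Prop
  u : ℕ → X → Prop
  v : X → Prop

/-- A requirement for a new element. -/
structure Rq (X : Type) where
  D : Finset X
  E : Finset X
  A : Finset X
  B : Finset X
  t : ℕ
  w : Bool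

instance {X : Type} [Countable X] : Countable (Rq X) := by
  have : Function.Injective (fun q : Rq X => (q.D, q.E, q.A, q.B, q.t, q.w)) := by
    rintro ⟨a, b, c, d, e, f⟩ ⟨a', b', c', d', e', f'⟩ h
    simp only [Prod.mk.injEq] at h
    obtain ⟨rfl, rfl, rfl, rfl, rfl, rfl⟩ := h
    rfl
  exact this.countable

/-- Adding a new element. -/
def Stg.add {X : Type} (s : Stg X) (z : X) (q : Rq X) : Stg X where
  lt x y := s.lt x y ∨ (y = z ∧ ∃ d ∈ q.D, x = d ∨ s.lt x d) ∨ (x = z ∧ ∃ e ∈ q.E, y = e ∨ s.lt e y)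
  rr x y := s.rr x y ∨ (y = z ∧ x ∈ q.A) ∨ (x = z ∧ y ∈ q.B)
  u m x := s.u m x ∨ (x = z ∧ (m < q.t ∨ ∃ d ∈ q.D, s.u m d))
  v x := s.v x ∨ (x = z ∧ (q.w = true ∨ ∃ d ∈ q.D, s.v d))

/-- The stage is a structure with the required properties, on the set `F`. -/
structure Stg.OK {X : Type} (s : Stg X) (F : Set X) : Prop where
  dlt : ∀ x y, s.lt x y → x ∈ F ∧ y ∈ F
  drr : ∀ x y, s.rr x y → x ∈ F ∧ y ∈ F
  du : ∀ m x, s.u m x → x ∈ F
  dv : ∀ x, s.v x → x ∈ F
  irrefl : ∀ x, ¬ s.lt x x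
  trans : ∀ x y z, s.lt x y → s.lt y z → s.lt x z
  rirr : ∀ x, ¬ s.rr x x
  anti : ∀ m x, s.u (m + 1) x → s.u m x
  umono : ∀ m x y, s.lt x y → s.u m x → s.u m y
  vmono : ∀ x y, s.lt x y → s.v x → s.v y

/-- The requirement can be satisfied. -/
structure Rq.Valid {X : Type} (q : Rq X) (s : Stg X) (F : Set X) : Prop where
  hD : ∀ x ∈ q.D, x ∈ F
  hE : ∀ x ∈ q.E, x ∈ F
  hA : ∀ x ∈ q.A, x ∈ F
  hB : ∀ x ∈ q.B, x ∈ F
  hDE : ∀ d ∈ q.D, ∀ e ∈ q.E, s.lt d e
  hu : ∀ e ∈ q.E, ∀ m, m < q.t → s.u m e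
  hv : q.w = true → ∀ e ∈ q.E, s.v e

lemma Stg.OK.mono {X : Type} {s : Stg X} {F F' : Set X} (h : s.OK F) (hF : F ⊆ F') : s.OK F' :=
  ⟨fun x y h' => ⟨hF (h.dlt x y h').1, hF (h.dlt x y h').2⟩,
    fun x y h' => ⟨hF (h.drr x y h').1, hF (h.drr x y h').2⟩, fun m x h' => hF (h.du m x h'),
    fun x h' => hF (h.dv x h'), h.irrefl, h.trans, h.rirr, h.anti, h.umono, h.vmono⟩

lemma Stg.OK.add {X : Type} {s : Stg X} {F : Set X} (h : s.OK F) {z : X} (hz : z ∉ F) {q : Rq X}
    (hq : q.Valid s F) : (s.add z q).OK (insert z F) := by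
  have le_F : ∀ x d, d ∈ q.D → (x = d ∨ s.lt x d) → x ∈ F := by
    rintro x d hd (rfl | h')
    · exact hq.hD _ hd
    · exact (h.dlt _ _ h').1
  have ge_F : ∀ y e, e ∈ q.E → (y = e ∨ s.lt e y) → y ∈ F := by
    rintro x d hd (rfl | h')
    · exact hq.hE _ hd
    · exact (h.dlt _ _ h').2
  constructor
  · rintro x y (h' | ⟨rfl, d, hd, h'⟩ | ⟨rfl, d, hd, h'⟩)
    · exact ⟨Or.inr (h.dlt _ _ h').1, Or.inr (h.dlt _ _ h').2⟩
    · exact ⟨Or.inr (le_F _ _ hd h'), Or.inl rfl⟩
    · exact ⟨Or.inl rfl, Or.inr (ge_F _ _ hd h')⟩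
  · rintro x y (h' | ⟨rfl, h'⟩ | ⟨rfl, h'⟩)
    · exact ⟨Or.inr (h.drr _ _ h').1, Or.inr (h.drr _ _ h').2⟩
    · exact ⟨Or.inr (hq.hA _ h'), Or.inl rfl⟩
    · exact ⟨Or.inl rfl, Or.inr (hq.hB _ h')⟩
  · rintro m x (h' | ⟨rfl, -⟩)
    · exact Or.inr (h.du _ _ h')
    · exact Or.inl rfl
  · rintro x (h' | ⟨rfl, -⟩)
    · exact Or.inr (h.dv _ h')
    · exact Or.inl rfl
  · rintro x (h' | ⟨rfl, d, hd, h'⟩ | ⟨rfl, d, hd, h'⟩)
    · exact h.irrefl _ h'
    · exact hz (le_F _ _ hd h')
    · exact hz (ge_F _ _ hd h')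
  · rintro x y w (h1 | ⟨h1z, d, hd, h1⟩ | ⟨h1z, d, hd, h1⟩) (h2 | ⟨h2z, d', hd', h2⟩ | ⟨h2z, d', hd', h2⟩)
    · exact Or.inl (h.trans _ _ _ h1 h2)
    · refine Or.inr (Or.inl ⟨h2z, d', hd', Or.inr ?_⟩)
      rcases h2 with rfl | h2
      · exact h1
      · exact h.trans _ _ _ h1 h2
    · exact absurd (h2z ▸ (h.dlt _ _ h1).2) hz
    · exact absurd (h1z ▸ (h.dlt _ _ h2).1) hz
    · exact absurd (h1z ▸ le_F _ _ hd' h2) hz
    · refine Or.inl ?_
      have h3 := hq.hDE d hd d' hd'
      have h4 : s.lt x d' := by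
        rcases h1 with rfl | h1
        · exact h3
        · exact h.trans _ _ _ h1 h3
      rcases h2 with rfl | h2
      · exact h4
      · exact h.trans _ _ _ h4 h2
    · refine Or.inr (Or.inr ⟨h1z, d, hd, Or.inr ?_⟩)
      rcases h1 with rfl | h1
      · exact h2
      · exact h.trans _ _ _ h1 h2
    · exfalso
      have h3 := hq.hDE d' hd' d hd
      have h4 : s.lt y d := by
        rcases h2 with rfl | h2
        · exact h3
        · exact h.trans _ _ _ h2 h3
      rcases h1 with rfl | h1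
      · exact h.irrefl _ h4
      · exact h.irrefl _ (h.trans _ _ _ h4 h1)
    · exact absurd (h2z ▸ ge_F _ _ hd h1) hz
  · rintro x (h' | ⟨rfl, h'⟩ | ⟨rfl, h'⟩)
    · exact h.rirr _ h'
    · exact hz (hq.hA _ h')
    · exact hz (hq.hB _ h')
  · rintro m x (h' | ⟨rfl, h' | ⟨d, hd, h'⟩⟩)
    · exact Or.inl (h.anti _ _ h')
    · exact Or.inr ⟨rfl, Or.inl (Nat.lt_of_succ_lt h')⟩
    · exact Or.inr ⟨rfl, Or.inr ⟨d, hd, h.anti _ _ h'⟩⟩
  · rintro m x y (h1 | ⟨h1z, d, hd, h1⟩ | ⟨h1z, d, hd, h1⟩) (h2 | ⟨h2z, h2⟩)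
    · exact Or.inl (h.umono _ _ _ h1 h2)
    · exact absurd (h2z ▸ (h.dlt _ _ h1).1) hz
    · refine Or.inr ⟨h1z, Or.inr ⟨d, hd, ?_⟩⟩
      rcases h1 with rfl | h1
      · exact h2
      · exact h.umono _ _ _ h1 h2
    · exact absurd (h2z ▸ le_F _ _ hd h1) hz
    · exact absurd (h1z ▸ h.du _ _ h2) hz
    · refine Or.inl ?_
      have h3 : s.u m d := by
        rcases h2 with h2 | ⟨d', hd', h2⟩
        · exact hq.hu _ hd _ h2
        · exact h.umono _ _ _ (hq.hDE d' hd' d hd) h2
      rcases h1 with rfl | h1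
      · exact h3
      · exact h.umono _ _ _ h1 h3
  · rintro x y (h1 | ⟨h1z, d, hd, h1⟩ | ⟨h1z, d, hd, h1⟩) (h2 | ⟨h2z, h2⟩)
    · exact Or.inl (h.vmono _ _ h1 h2)
    · exact absurd (h2z ▸ (h.dlt _ _ h1).1) hz
    · refine Or.inr ⟨h1z, Or.inr ⟨d, hd, ?_⟩⟩
      rcases h1 with rfl | h1
      · exact h2
      · exact h.vmono _ _ h1 h2
    · exact absurd (h2z ▸ le_F _ _ hd h1) hz
    · exact absurd (h1z ▸ h.dv _ h2) hz
    · refine Or.inl ?_
      have h3 : s.v d := by
        rcases h2 with h2 | ⟨d', hd', h2⟩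
        · exact hq.hv h2 _ hd
        · exact h.vmono _ _ (hq.hDE d' hd' d hd) h2
      rcases h1 with rfl | h1
      · exact h3
      · exact h.vmono _ _ h1 h3

/-- The initial data: an antichain `P` with colours and a relation. -/
structure Inp where
  P : Type
  cP : Countable P
  r : P → P → Prop
  u : ℕ → P → Prop
  v : P → Prop
  rirr : ∀ p, ¬ r p p
  anti : ∀ m p, u (m + 1) p → u m p

/-- The underlying set of the free extension. -/
def Gn (I : Inp) : Type := I.P ⊕ ℕ

/-- The elements of the antichain. -/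
def Gn.inl {I : Inp} (p : I.P) : Gn I := Sum.inl p

/-- The new elements. -/
def Gn.inr {I : Inp} (n : ℕ) : Gn I := Sum.inr n

lemma Gn.inl_inj {I : Inp} {p q : I.P} (h : Gn.inl p = Gn.inl q) : p = q := Sum.inl_injective h

lemma Gn.inr_inj {I : Inp} {p q : ℕ} (h : (Gn.inr p : Gn I) = Gn.inr q) : p = q :=
  Sum.inr_injective h

lemma Gn.cases {I : Inp} (x : Gn I) : (∃ p, x = Gn.inl p) ∨ ∃ n, x = Gn.inr n := by
  rcases x with p | n
  · exact Or.inl ⟨p, rfl⟩
  · exact Or.inr ⟨n, rfl⟩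

instance (I : Inp) : Countable (Gn I) := by
  have := I.cP
  unfold Gn
  infer_instance

/-- The elements present at stage `n`. -/
def dom (I : Inp) (n : ℕ) : Set (Gn I) := {x | ∀ k, x = Gn.inr k → k < n}

lemma dom_inl {I : Inp} (n : ℕ) (p : I.P) : Gn.inl p ∈ dom I n := by
  intro k h
  cases h

lemma dom_inr {I : Inp} {n k : ℕ} : (Gn.inr k : Gn I) ∈ dom I n ↔ k < n :=
  ⟨fun h => h k rfl, fun h j hj => by rw [← Gn.inr_inj hj]; exact h⟩

lemma dom_mono {I : Inp} {n m : ℕ} (h : n ≤ m) : dom I n ⊆ dom I m :=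
  fun _ hx k hk => (hx k hk).trans_le h

lemma dom_succ {I : Inp} (n : ℕ) : dom I (n + 1) = insert (Gn.inr n) (dom I n) := by
  ext x
  constructor
  · intro hx
    by_cases h : x = Gn.inr n
    · exact Or.inl h
    · refine Or.inr fun k hk => ?_
      have h1 := hx k hk
      rcases Nat.lt_succ_iff_lt_or_eq.1 h1 with h2 | rfl
      · exact h2
      · exact absurd hk h
  · rintro (rfl | hx)
    · exact dom_inr.2 (Nat.lt_succ_self n)
    · exact dom_mono (Nat.le_succ n) hx

lemma inr_notMem {I : Inp} (n : ℕ) : (Gn.inr n : Gn I) ∉ dom I n := by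
  rw [dom_inr]
  exact lt_irrefl n

instance {X : Type} : Inhabited (Rq X) := ⟨⟨∅, ∅, ∅, ∅, 0, false⟩⟩

lemma exists_enum (I : Inp) : ∃ e : ℕ → Rq (Gn I), ∀ q n, ∃ m, n ≤ m ∧ e m = q := by
  obtain ⟨f, hf⟩ := exists_surjective_nat (Rq (Gn I))
  refine ⟨fun n => f n.unpair.1, fun q n => ?_⟩
  obtain ⟨a, ha⟩ := hf q
  exact ⟨Nat.pair a n, Nat.right_le_pair a n, by simp [ha]⟩

/-- The enumeration of the requirements. -/
def enum (I : Inp) : ℕ → Rq (Gn I) := Classical.choose (exists_enum I)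

lemma enum_spec (I : Inp) (q : Rq (Gn I)) (n : ℕ) : ∃ m, n ≤ m ∧ enum I m = q :=
  Classical.choose_spec (exists_enum I) q n

open Classical in
/-- The stages of the construction. -/
def stage (I : Inp) : ℕ → Stg (Gn I)
  | 0 => ⟨fun _ _ => False, fun x y => ∃ p q, x = Gn.inl p ∧ y = Gn.inl q ∧ I.r p q,
      fun m x => ∃ p, x = Gn.inl p ∧ I.u m p, fun x => ∃ p, x = Gn.inl p ∧ I.v p⟩
  | n + 1 => if (enum I n).Valid (stage I n) (dom I n) then (stage I n).add (Gn.inr n) (enum I n)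
      else stage I n

lemma stage_valid {I : Inp} {n : ℕ} (h : (enum I n).Valid (stage I n) (dom I n)) :
    stage I (n + 1) = (stage I n).add (Gn.inr n) (enum I n) := by
  rw [stage, if_pos h]

lemma stage_invalid {I : Inp} {n : ℕ} (h : ¬ (enum I n).Valid (stage I n) (dom I n)) :
    stage I (n + 1) = stage I n := by
  rw [stage, if_neg h]

lemma stage_ok (I : Inp) (n : ℕ) : (stage I n).OK (dom I n) := by
  induction n with
  | zero =>
    constructor
    · rintro x y h
      exact h.elim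
    · rintro x y ⟨p, q, rfl, rfl, -⟩
      exact ⟨dom_inl _ _, dom_inl _ _⟩
    · rintro m x ⟨p, rfl, -⟩
      exact dom_inl _ _
    · rintro x ⟨p, rfl, -⟩
      exact dom_inl _ _
    · rintro x h
      exact h.elim
    · rintro x y z h
      exact h.elim
    · rintro x ⟨p, q, rfl, h, h'⟩
      rw [Gn.inl_inj h] at h'
      exact I.rirr _ h'
    · rintro m x ⟨p, rfl, h⟩
      exact ⟨p, rfl, I.anti _ _ h⟩
    · rintro m x y h
      exact h.elim
    · rintro x y h
      exact h.elim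
  | succ n ih =>
    rw [dom_succ]
    by_cases h : (enum I n).Valid (stage I n) (dom I n)
    · rw [stage_valid h]
      exact ih.add (inr_notMem n) h
    · rw [stage_invalid h]
      exact ih.mono (Set.subset_insert _ _)

/-- The relations do not change on old elements. -/
structure Cons {X : Type} (s s' : Stg X) (F : Set X) : Prop where
  lt : ∀ x y, x ∈ F → y ∈ F → (s.lt x y ↔ s'.lt x y)
  rr : ∀ x y, x ∈ F → y ∈ F → (s.rr x y ↔ s'.rr x y)
  u : ∀ m x, x ∈ F → (s.u m x ↔ s'.u m x)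
  v : ∀ x, x ∈ F → (s.v x ↔ s'.v x)

lemma cons_add {X : Type} {s : Stg X} {F : Set X} {z : X} (hz : z ∉ F) (q : Rq X) :
    Cons s (s.add z q) F := by
  have hne : ∀ x, x ∈ F → x ≠ z := fun x hx h => hz (h ▸ hx)
  constructor
  · intro x y hx hy
    simp [Stg.add, hne x hx, hne y hy]
  · intro x y hx hy
    simp [Stg.add, hne x hx, hne y hy]
  · intro m x hx
    simp [Stg.add, hne x hx]
  · intro x hx
    simp [Stg.add, hne x hx]

lemma cons_stage {I : Inp} {n m : ℕ} (h : n ≤ m) : Cons (stage I n) (stage I m) (dom I n) := by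
  induction h with
  | refl => exact ⟨fun _ _ _ _ => Iff.rfl, fun _ _ _ _ => Iff.rfl, fun _ _ _ => Iff.rfl,
      fun _ _ => Iff.rfl⟩
  | @step m h ih =>
    by_cases hv : (enum I m).Valid (stage I m) (dom I m)
    · rw [stage_valid hv]
      have h2 := cons_add (s := stage I m) (inr_notMem (I := I) m) (enum I m)
      have hs := dom_mono (I := I) h
      exact ⟨fun x y hx hy => (ih.lt x y hx hy).trans (h2.lt x y (hs hx) (hs hy)),
        fun x y hx hy => (ih.rr x y hx hy).trans (h2.rr x y (hs hx) (hs hy)),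
        fun k x hx => (ih.u k x hx).trans (h2.u k x (hs hx)),
        fun x hx => (ih.v x hx).trans (h2.v x (hs hx))⟩
    · rw [stage_invalid hv]
      exact ih

/-- The free generic extension. -/
instance genStr (I : Inp) : Lg.Structure (Gn I) where
  funMap := fun f => isEmptyElim f
  RelMap := fun {_} R => match R with
    | .u m => fun x => ∃ n, (stage I n).u m (x 0)
    | .v => fun x => ∃ n, (stage I n).v (x 0)
    | .lt => fun x => ∃ n, (stage I n).lt (x 0) (x 1)
    | .rr => fun x => ∃ n, (stage I n).rr (x 0) (x 1)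

section

variable {I : Inp}

lemma lt_def {x y : Gn I} : Lt x y ↔ ∃ n, (stage I n).lt x y := Iff.rfl
lemma rr_def {x y : Gn I} : Rr x y ↔ ∃ n, (stage I n).rr x y := Iff.rfl
lemma u_def {m : ℕ} {x : Gn I} : U m x ↔ ∃ n, (stage I n).u m x := Iff.rfl
lemma v_def {x : Gn I} : V x ↔ ∃ n, (stage I n).v x := Iff.rfl

lemma exists_dom (x : Gn I) : ∃ n, x ∈ dom I n := by
  rcases Gn.cases x with ⟨p, rfl⟩ | ⟨n, rfl⟩
  · exact ⟨0, dom_inl _ _⟩
  · exact ⟨n + 1, dom_inr.2 (Nat.lt_succ_self n)⟩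

lemma lt_iff {n : ℕ} {x y : Gn I} (hx : x ∈ dom I n) (hy : y ∈ dom I n) :
    Lt x y ↔ (stage I n).lt x y := by
  rw [lt_def]
  refine ⟨fun ⟨m, h⟩ => ?_, fun h => ⟨n, h⟩⟩
  rcases le_total m n with hmn | hmn
  · have h1 := (stage_ok I m).dlt _ _ h
    exact ((cons_stage hmn).lt x y h1.1 h1.2).1 h
  · exact ((cons_stage hmn).lt x y hx hy).2 h

lemma rr_iff {n : ℕ} {x y : Gn I} (hx : x ∈ dom I n) (hy : y ∈ dom I n) :
    Rr x y ↔ (stage I n).rr x y := by
  rw [rr_def]
  refine ⟨fun ⟨m, h⟩ => ?_, fun h => ⟨n, h⟩⟩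
  rcases le_total m n with hmn | hmn
  · have h1 := (stage_ok I m).drr _ _ h
    exact ((cons_stage hmn).rr x y h1.1 h1.2).1 h
  · exact ((cons_stage hmn).rr x y hx hy).2 h

lemma u_iff {n k : ℕ} {x : Gn I} (hx : x ∈ dom I n) : U k x ↔ (stage I n).u k x := by
  rw [u_def]
  refine ⟨fun ⟨m, h⟩ => ?_, fun h => ⟨n, h⟩⟩
  rcases le_total m n with hmn | hmn
  · exact ((cons_stage hmn).u k x ((stage_ok I m).du _ _ h)).1 h
  · exact ((cons_stage hmn).u k x hx).2 h

lemma v_iff {n : ℕ} {x : Gn I} (hx : x ∈ dom I n) : V x ↔ (stage I n).v x := by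
  rw [v_def]
  refine ⟨fun ⟨m, h⟩ => ?_, fun h => ⟨n, h⟩⟩
  rcases le_total m n with hmn | hmn
  · exact ((cons_stage hmn).v x ((stage_ok I m).dv _ h)).1 h
  · exact ((cons_stage hmn).v x hx).2 h

lemma exists_dom₂ (x y : Gn I) : ∃ n, x ∈ dom I n ∧ y ∈ dom I n := by
  obtain ⟨n, hn⟩ := exists_dom x
  obtain ⟨m, hm⟩ := exists_dom y
  exact ⟨max n m, dom_mono (le_max_left _ _) hn, dom_mono (le_max_right _ _) hm⟩

lemma exists_dom_all {k : ℕ} (x : Fin k → Gn I) : ∃ n, ∀ i, x i ∈ dom I n := by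
  choose g hg using fun i => exists_dom (x i)
  refine ⟨Finset.univ.sup g, fun i => dom_mono (Finset.le_sup (Finset.mem_univ i)) (hg i)⟩

open Classical in
/-- The free extension is generic. -/
theorem good_gen (I : Inp) : Good (Gn I) := by
  constructor
  · intro x h
    obtain ⟨n, hn⟩ := exists_dom x
    rw [lt_iff hn hn] at h
    exact (stage_ok I n).irrefl _ h
  · intro x y z h1 h2
    obtain ⟨n, hx, hy⟩ := exists_dom₂ x y
    obtain ⟨m, hz⟩ := exists_dom z
    have hx' := dom_mono (le_max_left n m) hx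
    have hy' := dom_mono (le_max_left n m) hy
    have hz' := dom_mono (le_max_right n m) hz
    rw [lt_iff hx' hy'] at h1
    rw [lt_iff hy' hz'] at h2
    rw [lt_iff hx' hz']
    exact (stage_ok I _).trans _ _ _ h1 h2
  · intro x h
    obtain ⟨n, hn⟩ := exists_dom x
    rw [rr_iff hn hn] at h
    exact (stage_ok I n).rirr _ h
  · intro m x h
    obtain ⟨n, hn⟩ := exists_dom x
    rw [u_iff hn] at h ⊢
    exact (stage_ok I n).anti _ _ h
  · intro m x y h1 h2
    obtain ⟨n, hx, hy⟩ := exists_dom₂ x y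
    rw [lt_iff hx hy] at h1
    rw [u_iff hx] at h2
    rw [u_iff hy]
    exact (stage_ok I n).umono _ _ _ h1 h2
  · intro x y h1 h2
    obtain ⟨n, hx, hy⟩ := exists_dom₂ x y
    rw [lt_iff hx hy] at h1
    rw [v_iff hx] at h2
    rw [v_iff hy]
    exact (stage_ok I n).vmono _ _ h1 h2
  · intro k N D E A B t w htN x hx
    obtain ⟨n₀, hn₀⟩ := exists_dom_all x
    obtain ⟨n, hn, hq⟩ := enum_spec I ⟨(Finset.univ.filter (· ∈ D)).image x,
      (Finset.univ.filter (· ∈ E)).image x, (Finset.univ.filter (· ∈ A)).image x,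
      (Finset.univ.filter (· ∈ B)).image x, t, decide w⟩ n₀
    have hd : ∀ i, x i ∈ dom I n := fun i => dom_mono hn (hn₀ i)
    have hval : (enum I n).Valid (stage I n) (dom I n) := by
      rw [hq]
      constructor
      · intro z hz
        simp only [Finset.mem_image] at hz
        obtain ⟨i, -, rfl⟩ := hz
        exact hd i
      · intro z hz
        simp only [Finset.mem_image] at hz
        obtain ⟨i, -, rfl⟩ := hz
        exact hd i
      · intro z hz
        simp only [Finset.mem_image] at hz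
        obtain ⟨i, -, rfl⟩ := hz
        exact hd i
      · intro z hz
        simp only [Finset.mem_image] at hz
        obtain ⟨i, -, rfl⟩ := hz
        exact hd i
      · intro d hd' e he
        simp only [Finset.mem_image, Finset.mem_filter, Finset.mem_univ, true_and] at hd' he
        obtain ⟨i, hi, rfl⟩ := hd'
        obtain ⟨j, hj, rfl⟩ := he
        rw [← lt_iff (hd i) (hd j)]
        exact hx.c3 i j hi hj
      · intro e he m hm
        simp only [Finset.mem_image, Finset.mem_filter, Finset.mem_univ, true_and] at he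
        obtain ⟨j, hj, rfl⟩ := he
        rw [← u_iff (hd j)]
        exact hx.c6 j ⟨m, hm⟩ hj
      · intro hw e he
        simp only [Finset.mem_image, Finset.mem_filter, Finset.mem_univ, true_and] at he
        obtain ⟨j, hj, rfl⟩ := he
        rw [← v_iff (hd j)]
        exact hx.c8 j hj (by simpa using hw)
    have hst := stage_valid hval
    have hz : (Gn.inr n : Gn I) ∈ dom I (n + 1) := dom_inr.2 (Nat.lt_succ_self n)
    have hd1 : ∀ i, x i ∈ dom I (n + 1) := fun i => dom_mono (Nat.le_succ n) (hd i)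
    have hne : ∀ i, x i ≠ Gn.inr n := fun i h => inr_notMem n (h ▸ hd i)
    have hok := stage_ok I n
    refine ⟨Gn.inr n, hne, fun i => ?_, fun i => ?_, fun i => ?_, fun i => ?_, fun m => ?_, ?_⟩
    · rw [lt_iff (hd1 i) hz, hst, hq]
      constructor
      · rintro (h | ⟨-, d, hd', h⟩ | ⟨h, -⟩)
        · exact absurd (hok.dlt _ _ h).2 (inr_notMem n)
        · simp only [Finset.mem_image, Finset.mem_filter, Finset.mem_univ, true_and] at hd'
          obtain ⟨j, hj, rfl⟩ := hd'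
          rw [← lt_iff (hd i) (hd j)] at h
          exact hx.c1 i j h hj
        · exact absurd h (hne i)
      · intro hi
        refine Or.inr (Or.inl ⟨rfl, x i, ?_, Or.inl rfl⟩)
        simp only [Finset.mem_image, Finset.mem_filter, Finset.mem_univ, true_and]
        exact ⟨i, hi, rfl⟩
    · rw [lt_iff hz (hd1 i), hst, hq]
      constructor
      · rintro (h | ⟨h, -⟩ | ⟨-, d, hd', h⟩)
        · exact absurd (hok.dlt _ _ h).1 (inr_notMem n)
        · exact absurd h (hne i)
        · simp only [Finset.mem_image, Finset.mem_filter, Finset.mem_univ, true_and] at hd'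
          obtain ⟨j, hj, rfl⟩ := hd'
          rw [← lt_iff (hd j) (hd i)] at h
          exact hx.c2 j i (h.imp Eq.symm id) hj
      · intro hi
        refine Or.inr (Or.inr ⟨rfl, x i, ?_, Or.inl rfl⟩)
        simp only [Finset.mem_image, Finset.mem_filter, Finset.mem_univ, true_and]
        exact ⟨i, hi, rfl⟩
    · rw [rr_iff (hd1 i) hz, hst, hq]
      constructor
      · rintro (h | ⟨-, h⟩ | ⟨h, -⟩)
        · exact absurd (hok.drr _ _ h).2 (inr_notMem n)
        · simp only [Finset.mem_image, Finset.mem_filter, Finset.mem_univ, true_and] at h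
          obtain ⟨j, hj, hij⟩ := h
          exact hx.c4 j i hij hj
        · exact absurd h (hne i)
      · intro hi
        refine Or.inr (Or.inl ⟨rfl, ?_⟩)
        simp only [Finset.mem_image, Finset.mem_filter, Finset.mem_univ, true_and]
        exact ⟨i, hi, rfl⟩
    · rw [rr_iff hz (hd1 i), hst, hq]
      constructor
      · rintro (h | ⟨h, -⟩ | ⟨-, h⟩)
        · exact absurd (hok.drr _ _ h).1 (inr_notMem n)
        · exact absurd h (hne i)
        · simp only [Finset.mem_image, Finset.mem_filter, Finset.mem_univ, true_and] at h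
          obtain ⟨j, hj, hij⟩ := h
          exact hx.c4' j i hij hj
      · intro hi
        refine Or.inr (Or.inr ⟨rfl, ?_⟩)
        simp only [Finset.mem_image, Finset.mem_filter, Finset.mem_univ, true_and]
        exact ⟨i, hi, rfl⟩
    · rw [u_iff hz, hst, hq]
      constructor
      · rintro (h | ⟨-, h | ⟨d, hd', h⟩⟩)
        · exact absurd (hok.du _ _ h) (inr_notMem n)
        · exact h
        · simp only [Finset.mem_image, Finset.mem_filter, Finset.mem_univ, true_and] at hd'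
          obtain ⟨j, hj, rfl⟩ := hd'
          rw [← u_iff (hd j)] at h
          exact hx.c5 j m hj h
      · intro h
        exact Or.inr ⟨rfl, Or.inl h⟩
    · rw [v_iff hz, hst, hq]
      constructor
      · rintro (h | ⟨-, h | ⟨d, hd', h⟩⟩)
        · exact absurd (hok.dv _ h) (inr_notMem n)
        · simpa using h
        · simp only [Finset.mem_image, Finset.mem_filter, Finset.mem_univ, true_and] at hd'
          obtain ⟨j, hj, rfl⟩ := hd'
          rw [← v_iff (hd j)] at h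
          exact hx.c7 j hj h
      · intro h
        exact Or.inr ⟨rfl, Or.inl (by simpa using h)⟩

end

end Pool.Agent.Helper82.BT
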