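import Mathlib

/-!
# The language, and the properties which are expressible by sentences
-/

open FirstOrder FirstOrder.Language FirstOrder.Language.Structure

noncomputable section

namespace Pool.Agent.Helper82.BT

/-- The relation symbols: unary `u n` and `v`, binary `lt` and `rr`. -/
inductive Rl : ℕ → Type
  | u (n : ℕ) : Rl 1
  | v : Rl 1
  | lt : Rl 2
  | rr : Rl 2

/-- The language. -/
def Lg : FirstOrder.Language.{0, 0} := ⟨fun _ => Empty, Rl⟩

instance (n : ℕ) : IsEmpty (Lg.Functions n) := inferInstanceAs (IsEmpty Empty)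

section

variable {M : Type} [Lg.Structure M]

/-- The predicate `u n`. -/
def U (n : ℕ) (x : M) : Prop := RelMap (L := Lg) (Rl.u n : Lg.Relations 1) ![x]

/-- The predicate `v`. -/
def V (x : M) : Prop := RelMap (L := Lg) (Rl.v : Lg.Relations 1) ![x]

/-- The relation `lt`. -/
def Lt (x y : M) : Prop := RelMap (L := Lg) (Rl.lt : Lg.Relations 2) ![x, y]

/-- The relation `rr`. -/
def Rr (x y : M) : Prop := RelMap (L := Lg) (Rl.rr : Lg.Relations 2) ![x, y]

end

/-! ### Expressible properties of tuples -/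

/-- A property of `n`-tuples in structures, expressible by a first-order formula. -/
def Ex (n : ℕ) (P : ∀ (M : Type) [Lg.Structure M], (Fin n → M) → Prop) : Prop :=
  ∃ φ : Lg.BoundedFormula Empty n, ∀ (M : Type) [Lg.Structure M] (x : Fin n → M),
    φ.Realize (default : Empty → M) x ↔ P M x

namespace Ex

variable {n : ℕ} {P Q : ∀ (M : Type) [Lg.Structure M], (Fin n → M) → Prop}

lemma const (p : Prop) : Ex n (fun _ _ _ => p) := by
  by_cases h : p
  · exact ⟨⊤, fun M _ x => by simp [h]⟩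
  · exact ⟨⊥, fun M _ x => by simp [h]⟩

lemma not (hP : Ex n P) : Ex n (fun M _ x => ¬ P M x) := by
  obtain ⟨φ, hφ⟩ := hP
  exact ⟨φ.not, fun M _ x => by rw [BoundedFormula.realize_not, hφ]⟩

lemma imp (hP : Ex n P) (hQ : Ex n Q) : Ex n (fun M _ x => P M x → Q M x) := by
  obtain ⟨φ, hφ⟩ := hP
  obtain ⟨ψ, hψ⟩ := hQ
  exact ⟨φ.imp ψ, fun M _ x => by rw [BoundedFormula.realize_imp, hφ, hψ]⟩

lemma and (hP : Ex n P) (hQ : Ex n Q) : Ex n (fun M _ x => P M x ∧ Q M x) := by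
  obtain ⟨φ, hφ⟩ := hP
  obtain ⟨ψ, hψ⟩ := hQ
  exact ⟨φ ⊓ ψ, fun M _ x => by rw [BoundedFormula.realize_inf, hφ, hψ]⟩

lemma or (hP : Ex n P) (hQ : Ex n Q) : Ex n (fun M _ x => P M x ∨ Q M x) := by
  obtain ⟨φ, hφ⟩ := hP
  obtain ⟨ψ, hψ⟩ := hQ
  exact ⟨φ ⊔ ψ, fun M _ x => by rw [BoundedFormula.realize_sup, hφ, hψ]⟩

lemma iff (hP : Ex n P) (hQ : Ex n Q) : Ex n (fun M _ x => (P M x ↔ Q M x)) := by
  obtain ⟨φ, hφ⟩ := hP
  obtain ⟨ψ, hψ⟩ := hQ
  exact ⟨φ.iff ψ, fun M _ x => by rw [BoundedFormula.realize_iff, hφ, hψ]⟩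

lemma forallFin {β : Type} [Finite β] {P : β → ∀ (M : Type) [Lg.Structure M], (Fin n → M) → Prop}
    (hP : ∀ b, Ex n (P b)) : Ex n (fun M _ x => ∀ b, P b M x) := by
  choose φ hφ using hP
  exact ⟨BoundedFormula.iInf φ, fun M _ x => by
    rw [BoundedFormula.realize_iInf]
    exact forall_congr' fun b => hφ b M x⟩

lemma all {P : ∀ (M : Type) [Lg.Structure M], (Fin (n + 1) → M) → Prop}
    (hP : Ex (n + 1) P) : Ex n (fun M _ x => ∀ y : M, P M (Fin.snoc x y)) := by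
  obtain ⟨φ, hφ⟩ := hP
  exact ⟨φ.all, fun M _ x => by
    rw [BoundedFormula.realize_all]
    exact forall_congr' fun b => hφ M _⟩

lemma ex {P : ∀ (M : Type) [Lg.Structure M], (Fin (n + 1) → M) → Prop}
    (hP : Ex (n + 1) P) : Ex n (fun M _ x => ∃ y : M, P M (Fin.snoc x y)) := by
  obtain ⟨φ, hφ⟩ := hP
  exact ⟨φ.ex, fun M _ x => by
    rw [BoundedFormula.realize_ex]
    exact exists_congr fun b => hφ M _⟩

lemma eq (i j : Fin n) : Ex n (fun _ _ x => x i = x j) :=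
  ⟨.equal (.var (Sum.inr i)) (.var (Sum.inr j)), fun M _ x => Iff.rfl⟩

lemma u (m : ℕ) (i : Fin n) : Ex n (fun _ _ x => U m (x i)) :=
  ⟨Relations.boundedFormula₁ (L := Lg) (α := Empty) (Rl.u m : Lg.Relations 1) (.var (Sum.inr i)),
    fun M _ x => by
    rw [BoundedFormula.realize_rel₁]
    rfl⟩

lemma v (i : Fin n) : Ex n (fun _ _ x => V (x i)) :=
  ⟨Relations.boundedFormula₁ (L := Lg) (α := Empty) (Rl.v : Lg.Relations 1) (.var (Sum.inr i)),
    fun M _ x => by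
    rw [BoundedFormula.realize_rel₁]
    rfl⟩

lemma lt (i j : Fin n) : Ex n (fun _ _ x => Lt (x i) (x j)) :=
  ⟨Relations.boundedFormula₂ (L := Lg) (α := Empty) (Rl.lt : Lg.Relations 2) (.var (Sum.inr i))
    (.var (Sum.inr j)), fun M _ x => by
    rw [BoundedFormula.realize_rel₂]
    rfl⟩

lemma rr (i j : Fin n) : Ex n (fun _ _ x => Rr (x i) (x j)) :=
  ⟨Relations.boundedFormula₂ (L := Lg) (α := Empty) (Rl.rr : Lg.Relations 2) (.var (Sum.inr i))
    (.var (Sum.inr j)), fun M _ x => by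
    rw [BoundedFormula.realize_rel₂]
    rfl⟩

/-- A universally quantified expressible property is preserved by elementary equivalence. -/
lemma transfer {M N : Type} [Lg.Structure M] [Lg.Structure N] (h : M ≅[Lg] N) (hP : Ex n P)
    (hM : ∀ x : Fin n → M, P M x) (x : Fin n → N) : P N x := by
  obtain ⟨φ, hφ⟩ := hP
  have h1 : M ⊨ φ.alls := by
    rw [Sentence.Realize, BoundedFormula.realize_alls]
    intro y
    have := (hφ M y).2 (hM y)
    rwa [Subsingleton.elim (default : Empty → M) _] at this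
  have h2 : N ⊨ φ.alls := (elementarilyEquivalent_iff.1 h _).1 h1
  rw [Sentence.Realize, BoundedFormula.realize_alls] at h2
  have := h2 x
  rw [Subsingleton.elim (default : Empty → N) default] at this
  exact (hφ N x).1 (by convert this)

lemma congr (h : ∀ (M : Type) [Lg.Structure M] (x : Fin n → M), P M x ↔ Q M x) (hP : Ex n P) :
    Ex n Q := by
  obtain ⟨φ, hφ⟩ := hP
  exact ⟨φ, fun M _ x => (hφ M x).trans (h M x)⟩

end Ex

/-! ### The extension property -/

section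

variable {M : Type} [Lg.Structure M] {ι : Type}

/-- The requirement: `D` is to be below the new element, `E` above, `A` and `B` are the sets of
elements which are in the relation `rr` to and from the new element; the truncated colour of the
new element is `t`, and `w` tells if it has the property `v`. -/
structure Cond (N : ℕ) (D E A B : Set ι) (t : ℕ) (w : Prop) (x : ι → M) : Prop where
  c1 : ∀ i j, (x i = x j ∨ Lt (x i) (x j)) → j ∈ D → i ∈ D
  c2 : ∀ i j, (x i = x j ∨ Lt (x i) (x j)) → i ∈ E → j ∈ E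
  c3 : ∀ i j, i ∈ D → j ∈ E → Lt (x i) (x j)
  c4 : ∀ i j, x i = x j → i ∈ A → j ∈ A
  c4' : ∀ i j, x i = x j → i ∈ B → j ∈ B
  c5 : ∀ i, ∀ n : Fin N, i ∈ D → U n (x i) → (n : ℕ) < t
  c6 : ∀ i, ∀ n : Fin t, i ∈ E → U n (x i)
  c7 : ∀ i, i ∈ D → V (x i) → w
  c8 : ∀ i, i ∈ E → w → V (x i)

/-- The new element has the required relations. -/
structure Pat (N : ℕ) (D E A B : Set ι) (t : ℕ) (w : Prop) (x : ι → M) (y : M) : Prop where
  ne : ∀ i, x i ≠ y
  d : ∀ i, Lt (x i) y ↔ i ∈ D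
  e : ∀ i, Lt y (x i) ↔ i ∈ E
  a : ∀ i, Rr (x i) y ↔ i ∈ A
  b : ∀ i, Rr y (x i) ↔ i ∈ B
  u : ∀ n : Fin N, U n y ↔ (n : ℕ) < t
  v : V y ↔ w

lemma cond_iff {N : ℕ} {D E A B : Set ι} {t : ℕ} {w : Prop} {x : ι → M} :
    Cond N D E A B t w x ↔
      (∀ i j, (x i = x j ∨ Lt (x i) (x j)) → j ∈ D → i ∈ D) ∧
      (∀ i j, (x i = x j ∨ Lt (x i) (x j)) → i ∈ E → j ∈ E) ∧
      (∀ i j, i ∈ D → j ∈ E → Lt (x i) (x j)) ∧
      (∀ i j, x i = x j → i ∈ A → j ∈ A) ∧
      (∀ i j, x i = x j → i ∈ B → j ∈ B) ∧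
      (∀ i, ∀ n : Fin N, i ∈ D → U n (x i) → (n : ℕ) < t) ∧
      (∀ i, ∀ n : Fin t, i ∈ E → U n (x i)) ∧
      (∀ i, i ∈ D → V (x i) → w) ∧
      (∀ i, i ∈ E → w → V (x i)) :=
  ⟨fun h => ⟨h.c1, h.c2, h.c3, h.c4, h.c4', h.c5, h.c6, h.c7, h.c8⟩,
    fun ⟨a1, a2, a3, a4, a5, a6, a7, a8, a9⟩ => ⟨a1, a2, a3, a4, a5, a6, a7, a8, a9⟩⟩

lemma pat_iff {N : ℕ} {D E A B : Set ι} {t : ℕ} {w : Prop} {x : ι → M} {y : M} :
    Pat N D E A B t w x y ↔
      (∀ i, x i ≠ y) ∧ (∀ i, Lt (x i) y ↔ i ∈ D) ∧ (∀ i, Lt y (x i) ↔ i ∈ E) ∧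
      (∀ i, Rr (x i) y ↔ i ∈ A) ∧ (∀ i, Rr y (x i) ↔ i ∈ B) ∧
      (∀ n : Fin N, U n y ↔ (n : ℕ) < t) ∧ (V y ↔ w) :=
  ⟨fun h => ⟨h.ne, h.d, h.e, h.a, h.b, h.u, h.v⟩,
    fun ⟨a1, a2, a3, a4, a5, a6, a7⟩ => ⟨a1, a2, a3, a4, a5, a6, a7⟩⟩

end

/-- The generic structures. -/
structure Good (M : Type) [Lg.Structure M] : Prop where
  irrefl : ∀ x : M, ¬ Lt x x
  trans : ∀ x y z : M, Lt x y → Lt y z → Lt x z
  rirr : ∀ x : M, ¬ Rr x x
  anti : ∀ (n : ℕ) (x : M), U (n + 1) x → U n x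
  umono : ∀ (n : ℕ) (x y : M), Lt x y → U n x → U n y
  vmono : ∀ x y : M, Lt x y → V x → V y
  ext : ∀ (k N : ℕ) (D E A B : Set (Fin k)) (t : ℕ) (w : Prop), t ≤ N → ∀ x : Fin k → M,
    Cond N D E A B t w x → ∃ y, Pat N D E A B t w x y

lemma Good.ext' {M : Type} [Lg.Structure M] (h : Good M) {ι : Type} [Finite ι] {N : ℕ}
    {D E A B : Set ι} {t : ℕ} {w : Prop} (ht : t ≤ N) {x : ι → M} (hx : Cond N D E A B t w x) :
    ∃ y, Pat N D E A B t w x y := by
  obtain ⟨k, ⟨e⟩⟩ := Finite.exists_equiv_fin ι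
  obtain ⟨y, hy⟩ := h.ext k N (e.symm ⁻¹' D) (e.symm ⁻¹' E) (e.symm ⁻¹' A) (e.symm ⁻¹' B) t w ht
    (x ∘ e.symm) ⟨fun i j => hx.c1 _ _, fun i j => hx.c2 _ _, fun i j => hx.c3 _ _,
      fun i j => hx.c4 _ _, fun i j => hx.c4' _ _, fun i => hx.c5 _, fun i => hx.c6 _,
      fun i => hx.c7 _, fun i => hx.c8 _⟩
  refine ⟨y, fun i => ?_, fun i => ?_, fun i => ?_, fun i => ?_, fun i => ?_, hy.u, hy.v⟩
  · simpa using hy.ne (e i)
  · simpa using hy.d (e i)
  · simpa using hy.e (e i)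
  · simpa using hy.a (e i)
  · simpa using hy.b (e i)

lemma ex_cond (k N : ℕ) (D E A B : Set (Fin k)) (t : ℕ) (w : Prop) :
    Ex k (fun _ _ x => Cond N D E A B t w x) := by
  refine Ex.congr (fun M _ x => cond_iff.symm) ?_
  refine Ex.and (.forallFin fun i => .forallFin fun j =>
      ((Ex.eq i j).or (.lt i j)).imp (.imp (.const _) (.const _))) ?_
  refine Ex.and (.forallFin fun i => .forallFin fun j =>
      ((Ex.eq i j).or (.lt i j)).imp (.imp (.const _) (.const _))) ?_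
  refine Ex.and (.forallFin fun i => .forallFin fun j =>
      .imp (.const _) (.imp (.const _) (.lt i j))) ?_
  refine Ex.and (.forallFin fun i => .forallFin fun j =>
      (Ex.eq i j).imp (.imp (.const _) (.const _))) ?_
  refine Ex.and (.forallFin fun i => .forallFin fun j =>
      (Ex.eq i j).imp (.imp (.const _) (.const _))) ?_
  refine Ex.and (.forallFin fun i => .forallFin fun n =>
      .imp (.const _) (.imp (.u n i) (.const _))) ?_
  refine Ex.and (.forallFin fun i => .forallFin fun n =>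
      .imp (.const _) (.u n i)) ?_
  refine Ex.and (.forallFin fun i =>
      .imp (.const _) (.imp (.v i) (.const _))) ?_
  exact .forallFin fun i => .imp (.const _) (.imp (.const _) (.v i))

lemma ex_pat (k N : ℕ) (D E A B : Set (Fin k)) (t : ℕ) (w : Prop) :
    Ex (k + 1) (fun _ _ x => Pat N D E A B t w (fun i : Fin k => x i.castSucc) (x (Fin.last k))) := by
  refine Ex.congr (fun M _ x => pat_iff.symm) ?_
  refine Ex.and (.forallFin fun i => .not (.eq _ _)) ?_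
  refine Ex.and (.forallFin fun i => .iff (.lt _ _) (.const _)) ?_
  refine Ex.and (.forallFin fun i => .iff (.lt _ _) (.const _)) ?_
  refine Ex.and (.forallFin fun i => .iff (.rr _ _) (.const _)) ?_
  refine Ex.and (.forallFin fun i => .iff (.rr _ _) (.const _)) ?_
  refine Ex.and (.forallFin fun n => .iff (.u _ _) (.const _)) ?_
  exact .iff (.v _) (.const _)

/-- Being generic is preserved by elementary equivalence. -/
theorem Good.transfer {M N : Type} [Lg.Structure M] [Lg.Structure N] (hM : Good M)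
    (h : M ≅[Lg] N) : Good N := by
  constructor
  · intro x
    exact Ex.transfer (n := 1) h (.not (.lt 0 0)) (fun x => hM.irrefl (x 0)) ![x]
  · intro x y z
    exact Ex.transfer (n := 3) h (.imp (.lt 0 1) (.imp (.lt 1 2) (.lt 0 2)))
      (fun x => hM.trans (x 0) (x 1) (x 2)) ![x, y, z]
  · intro x
    exact Ex.transfer (n := 1) h (.not (.rr 0 0)) (fun x => hM.rirr (x 0)) ![x]
  · intro n x
    exact Ex.transfer (n := 1) h (.imp (.u (n + 1) 0) (.u n 0)) (fun x => hM.anti n (x 0)) ![x]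
  · intro n x y
    exact Ex.transfer (n := 2) h (.imp (.lt 0 1) (.imp (.u n 0) (.u n 1)))
      (fun x => hM.umono n (x 0) (x 1)) ![x, y]
  · intro x y
    exact Ex.transfer (n := 2) h (.imp (.lt 0 1) (.imp (.v 0) (.v 1)))
      (fun x => hM.vmono (x 0) (x 1)) ![x, y]
  · intro k m D E A B t w ht
    have := Ex.transfer h (.imp (ex_cond k m D E A B t w) (.ex (ex_pat k m D E A B t w)))
      (fun x hx => by
        obtain ⟨y, hy⟩ := hM.ext k m D E A B t w ht x hx
        exact ⟨y, by simpa using hy⟩)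
    intro x hx
    obtain ⟨y, hy⟩ := this x hx
    exact ⟨y, by simpa using hy⟩

end Pool.Agent.Helper82.BT
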